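import Pool.Agent.Lib.MP_305fdd_al.F8.EG.Spl

/-!
# MP_305fdd_al, block E for general orders: the invariant lattice of a projective family
-/

set_option autoImplicit false

namespace Pool.Agent.F8.EG

variable {A : Type} [CommRing A] [IsDomain A] [IsPrincipalIdealRing A]

/-- A family of matrices over the fraction field of a principal ideal domain with common denominators, which
contains `1` and is closed under multiplication up to multiples from `A`, has an invariant lattice. -/
theorem lat {ι : Type} (m : ι → Matrix (Fin 2) (Fin 2) (FractionRing A)) (hB : Bdd m)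
    (h1 : ∃ i, m i = 1)
    (hm : ∀ i j, ∃ (k : ι) (c : A), m i * m j = algebraMap A (FractionRing A) c • m k) :
    ∃ B : Matrix (Fin 2) (Fin 2) (FractionRing A), B.det ≠ 0 ∧ ∀ l,
      ∃ M : Matrix (Fin 2) (Fin 2) A, m l * B = B * M.map (algebraMap A (FractionRing A)) := by
  obtain ⟨D, hD, hden⟩ := hB
  classical
  have inj : Function.Injective (algebraMap A (FractionRing A)) :=
    IsFractionRing.injective A (FractionRing A)
  have hD' : algebraMap A (FractionRing A) D ≠ 0 := fun h => hD (inj (by rw [h, map_zero]))
  let S : Set (Fin 2 → FractionRing A) :=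
    {v | ∃ (l : ι) (i : Fin 2), v = (m l).mulVec (Pi.single i 1)}
  let L : Submodule A (Fin 2 → FractionRing A) := Submodule.span A S
  let φ : (Fin 2 → A) →ₗ[A] (Fin 2 → FractionRing A) :=
    { toFun := fun n i => (algebraMap A (FractionRing A) D)⁻¹ * algebraMap A (FractionRing A) (n i)
      map_add' := fun n m => by ext i; simp [mul_add]
      map_smul' := fun c n => by
        ext i
        simp only [Pi.smul_apply, smul_eq_mul, map_mul, RingHom.id_apply, Algebra.smul_def]
        ring }
  have hLφ : L ≤ LinearMap.range φ := by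
    apply Submodule.span_le.mpr
    rintro v ⟨l, i, rfl⟩
    choose n hn using fun k => hden l k i
    refine ⟨n, ?_⟩
    ext k
    show (algebraMap A (FractionRing A) D)⁻¹ * algebraMap A (FractionRing A) (n k) = _
    rw [← hn k, ← mul_assoc, inv_mul_cancel₀ hD', one_mul]
    simp [Matrix.mulVec_single]
  have hfg : L.FG := by
    have hN : IsNoetherian A (LinearMap.range φ) := inferInstance
    have h1 : (L.comap (LinearMap.range φ).subtype).FG := hN.noetherian _
    have h2 : L = (L.comap (LinearMap.range φ).subtype).map (LinearMap.range φ).subtype := by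
      rw [Submodule.map_comap_eq, Submodule.range_subtype, inf_eq_right.mpr hLφ]
    rw [h2]
    exact h1.map _
  have hfin : Module.Finite A L := Module.Finite.iff_fg.mpr hfg
  have hfree : Module.Free A L := inferInstance
  let b := Module.Free.chooseBasis A L
  let w : Module.Free.ChooseBasisIndex A L → (Fin 2 → FractionRing A) :=
    fun i => (b i : Fin 2 → FractionRing A)
  have hw1 : LinearIndependent A w := b.linearIndependent.map' L.subtype L.ker_subtype
  have hw2 : LinearIndependent (FractionRing A) w :=
    (LinearIndependent.iff_fractionRing A (FractionRing A)).mp hw1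
  have hspO : ∀ v ∈ L, ∃ m : Module.Free.ChooseBasisIndex A L → A,
      v = ∑ i, algebraMap A (FractionRing A) (m i) • w i := by
    intro v hv
    refine ⟨b.repr ⟨v, hv⟩, ?_⟩
    have h1 := b.sum_repr ⟨v, hv⟩
    have h2 := congrArg (fun x : L => (x : Fin 2 → FractionRing A)) h1
    simp only [Submodule.coe_sum, Submodule.coe_smul] at h2
    refine h2.symm.trans (Finset.sum_congr rfl fun i _ => ?_)
    exact (algebraMap_smul _ _ _).symm
  have hS : ∀ l i, (m l).mulVec (Pi.single i 1) ∈ L := fun l i =>
    Submodule.subset_span ⟨l, i, rfl⟩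
  have hsp : ⊤ ≤ Submodule.span (FractionRing A) (Set.range w) := by
    obtain ⟨i0, hi0⟩ := h1
    have h1 : ∀ i : Fin 2, (Pi.single i 1 : Fin 2 → FractionRing A) ∈
        Submodule.span (FractionRing A) (Set.range w) := by
      intro i
      have h2 := hS i0 i
      rw [hi0, Matrix.one_mulVec] at h2
      obtain ⟨m, hm⟩ := hspO _ h2
      rw [hm]
      exact Submodule.sum_mem _ fun j _ => Submodule.smul_mem _ _ (Submodule.subset_span ⟨j, rfl⟩)
    intro v _
    have h2 : v = ∑ i, v i • (Pi.single i 1 : Fin 2 → FractionRing A) := by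
      ext k
      simp [Pi.single_apply]
    rw [h2]
    exact Submodule.sum_mem _ fun j _ => Submodule.smul_mem _ _ (h1 j)
  let bK : Module.Basis (Module.Free.ChooseBasisIndex A L) (FractionRing A)
      (Fin 2 → FractionRing A) := Module.Basis.mk hw2 hsp
  have hcard : Fintype.card (Module.Free.ChooseBasisIndex A L) = Fintype.card (Fin 2) := by
    rw [← Module.finrank_eq_card_basis bK]; simp
  let e : Fin 2 ≃ Module.Free.ChooseBasisIndex A L := (Fintype.equivOfCardEq hcard).symm
  -- stability
  have hst : ∀ l, ∀ v ∈ L, (m l).mulVec v ∈ L := by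
    intro l v hv
    induction hv using Submodule.span_induction with
    | mem v hv =>
      obtain ⟨l', i, rfl⟩ := hv
      obtain ⟨k, c, hk⟩ := hm l l'
      rw [Matrix.mulVec_mulVec, hk, Matrix.smul_mulVec, algebraMap_smul]
      exact L.smul_mem c (hS k i)
    | zero => rw [Matrix.mulVec_zero]; exact L.zero_mem
    | add x y _ _ hx hy => rw [Matrix.mulVec_add]; exact L.add_mem hx hy
    | smul a x _ hx =>
      rw [Matrix.mulVec_smul]; exact L.smul_mem a hx
  refine ⟨Matrix.of fun i k => w (e k) i, ?_, ?_⟩
  · have h1 : LinearIndependent (FractionRing A) (fun k => w (e k)) := hw2.comp e e.injective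
    have h2 : LinearIndependent (FractionRing A) (Matrix.of fun k i => w (e k) i).row := h1
    rw [Matrix.linearIndependent_rows_iff_isUnit, Matrix.isUnit_iff_isUnit_det] at h2
    rw [← Matrix.det_transpose]
    exact h2.ne_zero
  · intro l
    choose m' hm' using fun k : Fin 2 => hspO _ (hst l (w (e k)) (b (e k)).2)
    refine ⟨Matrix.of fun i k => m' k (e i), ?_⟩
    ext i k
    have h1 := congrFun (hm' k) i
    rw [Finset.sum_apply, ← Equiv.sum_comp e] at h1
    rw [Matrix.mul_apply, Matrix.mul_apply]
    simp only [Matrix.mulVec, dotProduct, Pi.smul_apply, smul_eq_mul] at h1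
    simp only [Matrix.of_apply, Matrix.map_apply]
    rw [h1]
    exact Finset.sum_congr rfl fun x _ => mul_comm _ _

omit [IsPrincipalIdealRing A] in
/-- from the lattice to the representation -/
theorem toA {Λ : Type} [Group Λ] (ρ : Λ →* SL2 (FractionRing A))
    (B : Matrix (Fin 2) (Fin 2) (FractionRing A)) (hB : B.det ≠ 0)
    (hM : ∀ l, ∃ M : Matrix (Fin 2) (Fin 2) A,
      (ρ l).val * B = B * M.map (algebraMap A (FractionRing A))) :
    ∃ ρ' : Λ →* SL2 A, ∀ l, algebraMap A (FractionRing A) (tr (ρ' l)) = tr (ρ l) := by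
  choose M hM using hM
  have hu : IsUnit B.det := isUnit_iff_ne_zero.mpr hB
  let f : Matrix (Fin 2) (Fin 2) A →+* Matrix (Fin 2) (Fin 2) (FractionRing A) :=
    (algebraMap A (FractionRing A)).mapMatrix
  have hf : Function.Injective f :=
    Matrix.map_injective (IsFractionRing.injective A (FractionRing A))
  have hfM : ∀ l, (ρ l).val * B = B * f (M l) := hM
  have e : ∀ l, f (M l) = B⁻¹ * (ρ l).val * B := by
    intro l
    rw [Matrix.mul_assoc, hfM, ← Matrix.mul_assoc, Matrix.nonsing_inv_mul _ hu, Matrix.one_mul]
  have hdet : ∀ l, (M l).det = 1 := by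
    intro l
    apply IsFractionRing.injective A (FractionRing A)
    have h1 : (f (M l)).det = algebraMap A (FractionRing A) (M l).det :=
      (RingHom.map_det (algebraMap A (FractionRing A)) (M l)).symm
    rw [← h1, e, Matrix.det_mul, Matrix.det_mul, (ρ l).property, mul_one, ← Matrix.det_mul,
      Matrix.nonsing_inv_mul _ hu, Matrix.det_one, map_one]
  refine ⟨⟨⟨fun l => ⟨M l, hdet l⟩, ?_⟩, ?_⟩, ?_⟩
  · apply Subtype.ext
    apply hf
    show f (M 1) = f 1
    rw [e, map_one, map_one]
    show B⁻¹ * 1 * B = 1
    rw [Matrix.mul_one, Matrix.nonsing_inv_mul _ hu]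
  · intro x y
    apply Subtype.ext
    apply hf
    show f (M (x * y)) = f (M x * M y)
    rw [map_mul, e, e, e, map_mul]
    show B⁻¹ * ((ρ x).val * (ρ y).val) * B = _
    have : B⁻¹ * (ρ x).val * B * (B⁻¹ * (ρ y).val * B) =
        B⁻¹ * (ρ x).val * (B * B⁻¹) * (ρ y).val * B := by
      simp only [Matrix.mul_assoc]
    rw [this, Matrix.mul_nonsing_inv _ hu]
    simp only [Matrix.mul_assoc, Matrix.one_mul]
  · intro l
    show algebraMap A (FractionRing A) (M l).trace = (ρ l).val.trace
    have h1 : (f (M l)).trace = algebraMap A (FractionRing A) (M l).trace := by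
      rw [Matrix.trace_fin_two, Matrix.trace_fin_two, map_add]
      rfl
    rw [← h1, e, Matrix.trace_mul_comm, ← Matrix.mul_assoc, Matrix.mul_nonsing_inv _ hu,
      Matrix.one_mul]

end Pool.Agent.F8.EG
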