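import Pool.Agent.Lib.MP_305fdd_al.F8.EG.Loc
import Pool.Agent.Lib.MP_305fdd_al.F8.EG.Lat
import Pool.Agent.Lib.MP_305fdd_al.F8.E.Ech

/-!
# MP_305fdd_al, block E for general orders: the main statement for one type
-/

set_option autoImplicit false

namespace Pool.Agent.F8.EG

variable {A : Type} [CommRing A] [IsDomain A] [IsPrincipalIdealRing A] [CharZero A]

theorem E_gen (hLeg : ∀ a b : A, a ≠ 0 → b ≠ 0 → LA a b → Sol a b)
    (hN : ∀ x : A, x ≠ 0 → ∃ n : ℕ, 0 < n ∧ x ∣ (n : A))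
    {Λ Om : Type} [Group Λ] [Field Om] [CharZero Om] (j : A →+* Om) (hj : Function.Injective j)
    (s : Λ →* SL2 Om) (T : Λ → A) (hT : ∀ l, tr (s l) = j (T l)) (hs : Irr s) (hL : Loc T) :
    ∃ ρ : Λ →* SL2 A, ∀ l, tr (ρ l) = T l := by
  obtain ⟨g, h, hb, ha⟩ := p_Ech Om Λ s hs
  have ha' : T g ^ 2 - 4 ≠ 0 := by
    intro h0
    apply ha
    have := congrArg j h0
    rw [map_sub, map_pow, ← hT, map_zero, map_ofNat] at this
    exact sub_eq_zero.mp this
  have hb' : T (g * h * g⁻¹ * h⁻¹) - 2 ≠ 0 := by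
    intro h0
    apply hb
    have := congrArg j h0
    rw [map_sub, ← hT, map_zero, map_ofNat] at this
    exact sub_eq_zero.mp this
  have hLA := els hN T hL g h ha'
  have hS := hLeg _ _ ha' hb' hLA
  obtain ⟨ρ, hB, hρ⟩ := esx j hj s T hT g h ha' hb' hS
  obtain ⟨B, hB0, hM⟩ := lat (fun l => (ρ l).val) hB ⟨1, by rw [map_one]; rfl⟩
    (fun x y => ⟨x * y, 1, by rw [map_mul, map_one, one_smul]; rfl⟩)
  obtain ⟨ρ', hρ'⟩ := toA ρ B hB0 hM
  refine ⟨ρ', fun l => ?_⟩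
  apply IsFractionRing.injective A (FractionRing A)
  rw [hρ', hρ]

end Pool.Agent.F8.EG
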