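import Mathlib

/-!
# MP_305fdd_al, block E for general orders: Legendre's theorem by descent

`A` is a principal ideal domain with a multiplicative norm. If the descent step decreases norms `≥ B`, and the
squarefree pairs of norms `< B` are known, then local solvability of `a x² + b y² = z²` at all primes
implies solvability.
-/

set_option autoImplicit false

namespace Pool.Agent.F8.EG

section defs

variable {A : Type} [CommRing A]

/-- local solvability of `a x² + b y² = z²` at `π` -/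
def LS (π a b : A) : Prop := ∃ C : ℕ, ∀ K : ℕ, ∃ x y z : A, π ^ K ∣ a * x ^ 2 + b * y ^ 2 - z ^ 2 ∧
  ¬ (π ^ C ∣ x ∧ π ^ C ∣ y ∧ π ^ C ∣ z)

/-- local solvability at all primes -/
def LA (a b : A) : Prop := ∀ π : A, Prime π → LS π a b

/-- a nontrivial solution of `a x² + b y² = z²` -/
def Sol (a b : A) : Prop := ∃ x y z : A, ¬ (x = 0 ∧ y = 0 ∧ z = 0) ∧ a * x ^ 2 + b * y ^ 2 = z ^ 2

/-- no square of a nonunit divides `b` -/
def Sf (b : A) : Prop := ∀ c : A, c ^ 2 ∣ b → IsUnit c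

end defs

section pid

variable {A : Type} [CommRing A] [IsDomain A]

theorem evl (π : A) (hπ : Prime π) [WfDvdMonoid A] (c : A) (hc : c ≠ 0) :
    ∃ v : ℕ, ∀ (C : ℕ) (x : A), π ^ (C + v) ∣ c * x → π ^ C ∣ x := by
  have hfin : FiniteMultiplicity π c := FiniteMultiplicity.of_prime_left hπ hc
  obtain ⟨c', hc', hd⟩ := hfin.exists_eq_pow_mul_and_not_dvd
  refine ⟨multiplicity π c, fun C x h => ?_⟩
  set v := multiplicity π c with hv
  rw [hc', add_comm, pow_add, mul_assoc] at h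
  have h1 := (mul_dvd_mul_iff_left (pow_ne_zero v hπ.ne_zero)).1 h
  exact hπ.pow_dvd_of_dvd_mul_left _ hd h1

theorem sym_LA (a b : A) (h : LA a b) : LA b a := by
  intro π hπ
  obtain ⟨C, hC⟩ := h π hπ
  refine ⟨C, fun K => ?_⟩
  obtain ⟨x, y, z, h3, h4⟩ := hC K
  refine ⟨y, x, z, ?_, fun h5 => h4 ⟨h5.2.1, h5.1, h5.2.2⟩⟩
  rw [add_comm (b * y ^ 2)]
  exact h3

theorem sym_Sol (a b : A) (h : Sol a b) : Sol b a := by
  obtain ⟨x, y, z, h1, h2⟩ := h
  exact ⟨y, x, z, fun h3 => h1 ⟨h3.2.1, h3.1, h3.2.2⟩, by rw [add_comm (b * y ^ 2)]; exact h2⟩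

theorem sc_LA [WfDvdMonoid A] (a b c : A) (hc : c ≠ 0) (h : LA (a * c ^ 2) b) : LA a b := by
  intro π hπ
  obtain ⟨C, hC⟩ := h π hπ
  obtain ⟨v, hv⟩ := evl π hπ c hc
  refine ⟨C + v, fun K => ?_⟩
  obtain ⟨x, y, z, h3, h4⟩ := hC K
  refine ⟨c * x, y, z, ?_, fun h5 => h4 ⟨hv C x h5.1, ?_, ?_⟩⟩
  · have h6 : a * (c * x) ^ 2 + b * y ^ 2 - z ^ 2 = a * c ^ 2 * x ^ 2 + b * y ^ 2 - z ^ 2 := by
      ring
    rw [h6]
    exact h3
  · exact (pow_dvd_pow π (Nat.le_add_right C v)).trans h5.2.1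
  · exact (pow_dvd_pow π (Nat.le_add_right C v)).trans h5.2.2

theorem sc_Sol (a b c : A) (hc : c ≠ 0) (h : Sol a b) : Sol (a * c ^ 2) b := by
  obtain ⟨x, y, z, h2, h3⟩ := h
  refine ⟨x, c * y, c * z, ?_, ?_⟩
  · rintro ⟨hx, hy, hz⟩
    exact h2 ⟨hx, (mul_eq_zero.mp hy).resolve_left hc, (mul_eq_zero.mp hz).resolve_left hc⟩
  · linear_combination c ^ 2 * h3

theorem primitive (π a b x y z : A) (C k : ℕ) (hπ : Prime π)
    (hdiv : π ^ (2 * C + k) ∣ a * x ^ 2 + b * y ^ 2 - z ^ 2)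
    (hnot : ¬ (π ^ C ∣ x ∧ π ^ C ∣ y ∧ π ^ C ∣ z)) :
    ∃ x' y' z' : A, π ^ k ∣ a * x' ^ 2 + b * y' ^ 2 - z' ^ 2 ∧ ¬ (π ∣ x' ∧ π ∣ y' ∧ π ∣ z') := by
  classical
  have hex : ∃ n : ℕ, ¬ (π ^ n ∣ x ∧ π ^ n ∣ y ∧ π ^ n ∣ z) := ⟨C, hnot⟩
  have hspec := Nat.find_spec hex
  have hnC : Nat.find hex ≤ C := Nat.find_min' hex hnot
  have hn0 : Nat.find hex ≠ 0 := by
    intro h0
    rw [h0] at hspec
    apply hspec
    simp
  obtain ⟨c, hc⟩ := Nat.exists_eq_succ_of_ne_zero hn0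
  have hcd := not_not.1 (Nat.find_min hex (show c < Nat.find hex by omega))
  rw [hc] at hspec
  obtain ⟨⟨x', rfl⟩, ⟨y', rfl⟩, ⟨z', rfl⟩⟩ := hcd
  refine ⟨x', y', z', ?_, ?_⟩
  · have h1 : π ^ (2 * c) * π ^ k ∣
        π ^ (2 * c) * (a * x' ^ 2 + b * y' ^ 2 - z' ^ 2) := by
      have h2 : π ^ (2 * c) * π ^ k ∣ π ^ (2 * C + k) := by
        rw [← pow_add]
        exact pow_dvd_pow _ (by omega)
      have h3 : a * (π ^ c * x') ^ 2 + b * (π ^ c * y') ^ 2 - (π ^ c * z') ^ 2 =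
          π ^ (2 * c) * (a * x' ^ 2 + b * y' ^ 2 - z' ^ 2) := by
        rw [two_mul, pow_add]; ring
      rw [← h3]
      exact h2.trans hdiv
    exact (mul_dvd_mul_iff_left (pow_ne_zero _ hπ.ne_zero)).1 h1
  · rintro ⟨h1, h2, h3⟩
    apply hspec
    rw [pow_succ]
    exact ⟨mul_dvd_mul_left _ h1, mul_dvd_mul_left _ h2, mul_dvd_mul_left _ h3⟩

/-- primitive approximate solutions -/
theorem LS.prim {π a b : A} (hπ : Prime π) (h : LS π a b) (k : ℕ) :
    ∃ x y z : A, π ^ k ∣ a * x ^ 2 + b * y ^ 2 - z ^ 2 ∧ ¬ (π ∣ x ∧ π ∣ y ∧ π ∣ z) := by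
  obtain ⟨C, hC⟩ := h
  obtain ⟨x, y, z, h1, h2⟩ := hC (2 * C + k)
  exact primitive π a b x y z C k hπ h1 h2

variable [IsPrincipalIdealRing A]

theorem esq (π a b : A) (hπ : Prime π) (hSf : Sf b) (hπb : π ∣ b) (hLS : LS π a b) :
    ∃ r : A, π ∣ r ^ 2 - a := by
  by_cases ha : π ∣ a
  · refine ⟨0, ?_⟩
    have : (0 : A) ^ 2 - a = -a := by ring
    rw [this]
    exact (dvd_neg).2 ha
  obtain ⟨x, y, z, h3, hnd⟩ := hLS.prim hπ 2
  have h1 : π ∣ a * x ^ 2 + b * y ^ 2 - z ^ 2 := (dvd_pow_self π (two_ne_zero)).trans h3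
  have hx : ¬ π ∣ x := by
    intro hx
    have hz : π ∣ z := by
      have h4 : π ∣ z ^ 2 := by
        have h5 : z ^ 2 = a * x ^ 2 + b * y ^ 2 - (a * x ^ 2 + b * y ^ 2 - z ^ 2) := by ring
        rw [h5]
        exact dvd_sub (dvd_add ((hx.trans (dvd_pow_self x two_ne_zero)).mul_left a)
          (hπb.mul_right _)) h1
      exact hπ.dvd_of_dvd_pow h4
    have hy2 : π ^ 2 ∣ b * y ^ 2 := by
      have h5 : b * y ^ 2 = (a * x ^ 2 + b * y ^ 2 - z ^ 2) - a * x ^ 2 + z ^ 2 := by ring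
      rw [h5]
      exact dvd_add (dvd_sub h3 ((pow_dvd_pow_of_dvd hx 2).mul_left a)) (pow_dvd_pow_of_dvd hz 2)
    obtain ⟨b', rfl⟩ := hπb
    have h6 : π ∣ b' * y ^ 2 := by
      have : π * π ∣ π * (b' * y ^ 2) := by
        rw [← mul_assoc, ← pow_two]
        exact hy2
      exact (mul_dvd_mul_iff_left hπ.ne_zero).1 this
    rcases hπ.dvd_or_dvd h6 with h7 | h7
    · apply hπ.not_isUnit
      apply hSf π
      rw [pow_two]
      exact mul_dvd_mul_left π h7
    · exact hnd ⟨hx, hπ.dvd_of_dvd_pow h7, hz⟩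
  obtain ⟨v, u, huv⟩ : IsCoprime π x := (hπ.irreducible.coprime_iff_not_dvd).2 hx
  refine ⟨z * u, ?_⟩
  have e : (z * u) ^ 2 - a = -(u ^ 2 * (a * x ^ 2 + b * y ^ 2 - z ^ 2)) + b * (y ^ 2 * u ^ 2) +
      π * (-(a * v * (u * x + 1))) := by
    have e1 : u * x - 1 = - (v * π) := by linear_combination huv
    linear_combination (a * (u * x + 1)) * e1
  rw [e]
  exact dvd_add (dvd_add ((dvd_neg).2 (h1.mul_left _)) (hπb.mul_right _)) (dvd_mul_right _ _)

theorem esb (a b : A) (hsf : Sf b) (hb : b ≠ 0) (hLA : LA a b) : ∃ r : A, b ∣ r ^ 2 - a := by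
  have key : ∀ d : A, d ∣ b → ∃ r : A, d ∣ r ^ 2 - a := by
    intro d
    induction d using UniqueFactorizationMonoid.induction_on_prime with
    | h₁ =>
      intro h
      exact absurd (zero_dvd_iff.1 h) hb
    | h₂ x hx =>
      intro _
      exact ⟨0, hx.dvd⟩
    | h₃ d' π hd' hπ ih =>
      intro hdvd
      obtain ⟨r', hr'⟩ := ih ((Dvd.intro_left π rfl).trans hdvd)
      have hπb : π ∣ b := (Dvd.intro d' rfl).trans hdvd
      obtain ⟨s, hs⟩ := esq π a b hπ hsf hπb (hLA π hπ)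
      have hnd : ¬ π ∣ d' := by
        intro h
        obtain ⟨e, he⟩ := h
        apply hπ.not_isUnit
        apply hsf π
        refine Dvd.dvd.trans ?_ hdvd
        exact ⟨e, by rw [he]; ring⟩
      have hcop : IsCoprime π d' := (hπ.irreducible.coprime_iff_not_dvd).2 hnd
      have hcop' := hcop
      obtain ⟨u, v, huv⟩ := hcop
      refine ⟨s * (v * d') + r' * (u * π), ?_⟩
      apply hcop'.mul_dvd
      · have e : (s * (v * d') + r' * (u * π)) ^ 2 - a =
            (s ^ 2 - a) + π * (u * (r' - s) * (2 * s + u * π * (r' - s))) := by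
          have hv : v * d' = 1 - u * π := by linear_combination huv
          rw [hv]; ring
        rw [e]
        exact dvd_add hs (Dvd.intro _ rfl)
      · have e : (s * (v * d') + r' * (u * π)) ^ 2 - a =
            (r' ^ 2 - a) + d' * (v * (s - r') * (2 * r' + v * d' * (s - r'))) := by
          have hv : u * π = 1 - v * d' := by linear_combination huv
          rw [hv]; ring
        rw [e]
        exact dvd_add hr' (Dvd.intro _ rfl)
  exact key b dvd_rfl

omit [IsPrincipalIdealRing A] in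
theorem eds1 [WfDvdMonoid A] (a b b1 r : A) (hr : r ^ 2 - a = b * b1) (hc : b * b1 ≠ 0)
    (hLA : LA a b) : LA a b1 := by
  have hb : b ≠ 0 := fun h => hc (by rw [h, zero_mul])
  intro π hπ
  obtain ⟨C, hC⟩ := hLA π hπ
  obtain ⟨v, hv⟩ := evl π hπ (b * b1) hc
  obtain ⟨v', hv'⟩ := evl π hπ b hb
  refine ⟨C + v + v', fun K => ?_⟩
  obtain ⟨x, y, z, hd, hnd⟩ := hC K
  refine ⟨z + r * x, b * y, r * z + a * x, ?_, ?_⟩
  · have e : a * (z + r * x) ^ 2 + b1 * (b * y) ^ 2 - (r * z + a * x) ^ 2 =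
        (b * b1) * (a * x ^ 2 + b * y ^ 2 - z ^ 2) := by
      linear_combination (a * x ^ 2 - z ^ 2) * hr
    rw [e]
    exact hd.mul_left _
  · rintro ⟨dX, dY, dZ⟩
    apply hnd
    have dX' : π ^ (C + v) ∣ z + r * x := (pow_dvd_pow π (by omega)).trans dX
    have dZ' : π ^ (C + v) ∣ r * z + a * x := (pow_dvd_pow π (by omega)).trans dZ
    refine ⟨?_, ?_, ?_⟩
    · apply hv
      have e : b * b1 * x = r * (z + r * x) - (r * z + a * x) := by
        linear_combination (-x) * hr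
      rw [e]
      exact dvd_sub (dX'.mul_left _) dZ'
    · apply hv'
      exact (pow_dvd_pow π (by omega)).trans dY
    · apply hv
      have e : b * b1 * z = r * (r * z + a * x) - a * (z + r * x) := by
        linear_combination (-z) * hr
      rw [e]
      exact dvd_sub (dZ'.mul_left _) (dX'.mul_left _)

omit [IsPrincipalIdealRing A] in
theorem eds2 (a b b1 r : A) (hr : r ^ 2 - a = b * b1) (hc : b * b1 ≠ 0)
    (hS : Sol a b1) : Sol a b := by
  have hb1 : b1 ≠ 0 := fun h => hc (by rw [h, mul_zero])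
  obtain ⟨X, Y, Z, hne, he⟩ := hS
  refine ⟨Z + r * X, b1 * Y, r * Z + a * X, ?_, ?_⟩
  · rintro ⟨hX, hY, hZ⟩
    apply hne
    have hY0 : Y = 0 := (mul_eq_zero.mp hY).resolve_left hb1
    have hX0 : b * b1 * X = 0 := by
      linear_combination (-X) * hr + r * hX - hZ
    have hZ0 : b * b1 * Z = 0 := by
      linear_combination (-Z) * hr + r * hZ - a * hX
    exact ⟨(mul_eq_zero.mp hX0).resolve_left hc, hY0, (mul_eq_zero.mp hZ0).resolve_left hc⟩
  · linear_combination (a * X ^ 2 - Z ^ 2) * hr + (b * b1) * he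

/-- a multiplicative norm -/
structure Nm (A : Type) [CommRing A] where
  /-- the norm -/
  N : A → ℕ
  /-- multiplicative -/
  mul : ∀ x y, N (x * y) = N x * N y
  /-- definite -/
  zero : ∀ x, N x = 0 → x = 0
  /-- units -/
  unit : ∀ x, N x = 1 → IsUnit x

/-- the reduction of `b` if it is not squarefree -/
theorem red (ν : Nm A) (a b : A) (hb : b ≠ 0) (hSf : ¬ Sf b) (hL : LA a b)
    (ih : ∀ b', b' ≠ 0 → ν.N b' < ν.N b → LA a b' → Sol a b') : Sol a b := by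
  unfold Sf at hSf
  push Not at hSf
  obtain ⟨c, ⟨b', hb'⟩, hc⟩ := hSf
  have hc0 : c ≠ 0 := by
    rintro rfl
    apply hb
    rw [hb']; ring
  have hb'0 : b' ≠ 0 := by
    rintro rfl
    apply hb
    rw [hb']; ring
  have hnc : 2 ≤ ν.N c := by
    have e1 : ν.N c ≠ 0 := fun h => hc0 (ν.zero _ h)
    have e2 : ν.N c ≠ 1 := fun h => hc (ν.unit _ h)
    omega
  have hnb' : ν.N b' ≠ 0 := fun h => hb'0 (ν.zero _ h)
  have hlt : ν.N b' < ν.N b := by
    rw [hb', sq, ν.mul, ν.mul]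
    have e3 : 4 ≤ ν.N c * ν.N c := by nlinarith
    have e4 : 0 < ν.N b' := Nat.pos_of_ne_zero hnb'
    nlinarith
  have hbb : b = b' * c ^ 2 := by rw [hb']; ring
  have hL1 : LA (b' * c ^ 2) a := by rw [← hbb]; exact sym_LA a b hL
  have hL2 : LA a b' := sym_LA b' a (sc_LA b' a c hc0 hL1)
  have hS : Sol a b' := ih b' hb'0 hlt hL2
  have hS2 : Sol (b' * c ^ 2) a := sc_Sol b' a c hc0 (sym_Sol a b' hS)
  rw [← hbb] at hS2
  exact sym_Sol b a hS2

/-- Legendre's theorem -/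
theorem legendre (ν : Nm A) (B : ℕ)
    (hdesc : ∀ a b r : A, b ≠ 0 → B ≤ ν.N b → ν.N a ≤ ν.N b →
      ∃ q : A, ν.N ((r - b * q) ^ 2 - a) < ν.N b ^ 2)
    (hbase : ∀ a b : A, a ≠ 0 → b ≠ 0 → ν.N a < B → ν.N b < B → Sf a → Sf b → LA a b → Sol a b) :
    ∀ a b : A, a ≠ 0 → b ≠ 0 → LA a b → Sol a b := by
  have step : ∀ n : ℕ, (∀ a b : A, ν.N a + ν.N b < n → a ≠ 0 → b ≠ 0 → LA a b → Sol a b) →
      ∀ a b : A, ν.N a + ν.N b < n + 1 → ν.N a ≤ ν.N b → a ≠ 0 → b ≠ 0 → LA a b → Sol a b := by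
    intro n ih a b hn hab ha hb hL
    by_cases hSf : Sf b
    · rcases lt_or_ge (ν.N b) B with hlt | hge
      · by_cases hSa : Sf a
        · exact hbase a b ha hb (by omega) hlt hSa hSf hL
        · apply sym_Sol
          apply red ν b a ha hSa (sym_LA a b hL)
          intro a' ha' hlt' hL'
          exact sym_Sol _ _ (ih a' b (by omega) ha' hb (sym_LA _ _ hL'))
      · obtain ⟨r0, c, hc⟩ := esb a b hSf hb hL
        obtain ⟨q, hq⟩ := hdesc a b r0 hb hge hab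
        have hr : (r0 - b * q) ^ 2 - a = b * (c - 2 * r0 * q + b * q ^ 2) := by
          linear_combination hc
        by_cases hb1 : c - 2 * r0 * q + b * q ^ 2 = 0
        · rw [hb1, mul_zero, sub_eq_zero] at hr
          refine ⟨1, 0, r0 - b * q, fun h => one_ne_zero h.1, ?_⟩
          rw [hr]; ring
        · rw [hr, ν.mul, sq (ν.N b)] at hq
          have hlt' : ν.N (c - 2 * r0 * q + b * q ^ 2) < ν.N b := Nat.lt_of_mul_lt_mul_left hq
          have k1 := eds1 a b _ (r0 - b * q) hr (mul_ne_zero hb hb1) hL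
          exact eds2 a b _ (r0 - b * q) hr (mul_ne_zero hb hb1) (ih a _ (by omega) ha hb1 k1)
    · apply red ν a b hb hSf hL
      intro b' hb' hlt' hL'
      exact ih a b' (by omega) ha hb' hL'
  have key : ∀ n : ℕ, ∀ a b : A, ν.N a + ν.N b < n → a ≠ 0 → b ≠ 0 → LA a b → Sol a b := by
    intro n
    induction n with
    | zero => intro a b h; omega
    | succ n ih =>
      intro a b hn ha hb hL
      rcases le_total (ν.N a) (ν.N b) with h | h
      · exact step n ih a b hn h ha hb hL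
      · exact sym_Sol b a (step n ih b a (by omega) h hb ha (sym_LA a b hL))
  intro a b ha hb hL
  exact key (ν.N a + ν.N b + 1) a b (by omega) ha hb hL

end pid

end Pool.Agent.F8.EG
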