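import Pool.Agent.Lib.MP_305fdd_al.F8.EG.Main
import Pool.Agent.Lib.MP_305fdd_al.F8.P.bn

/-!
# MP_305fdd_al, block E for general orders: groups with elements of type 1
-/

set_option autoImplicit false

namespace Pool.Agent.F8.EG

section alg

variable {A : Type} [CommRing A] {Om : Type} [Field Om]

theorem mm_smul (j : A →+* Om) (a : A) (M : Matrix (Fin 2) (Fin 2) A) :
    j.mapMatrix (a • M) = j a • j.mapMatrix M := by
  ext i k
  simp

/-- the coordinates of `u S` in the basis given by two elements -/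
theorem coord (j : A →+* Om) (G H S : SL2 Om) (G0 H0 : SL2 A) (X X' : Matrix (Fin 2) (Fin 2) Om)
    (h1 : X' * X = 1) (hG : X * (SLm j G0).val = G.val * X) (hH : X * (SLm j H0).val = H.val * X)
    (u : Om) (t0 t1 t2 t3 t4 t5 : A) (e0 : u * tr S = j t0) (e1 : u * tr (S * G) = j t1)
    (e2 : u * tr (S * G * H) = j t2) (e3 : u * tr (S * H * G) = j t3)
    (e4 : u * tr (S * G * G * H) = j t4) (e5 : u * tr (S * G * H * G) = j t5) :
    ∃ N : Matrix (Fin 2) (Fin 2) A,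
      j (2 * (tr G0 ^ 2 - 4) * (tr (G0 * H0 * G0⁻¹ * H0⁻¹) - 2)) • (X' * (u • S.val) * X) =
        j.mapMatrix N := by
  have h2 : X * X' = 1 := mul_eq_one_comm.mp h1
  have cG : X' * G.val * X = j.mapMatrix G0.val := by
    rw [mul_assoc, ← hG, ← mul_assoc, h1, one_mul]; rfl
  have cH : X' * H.val * X = j.mapMatrix H0.val := by
    rw [mul_assoc, ← hH, ← mul_assoc, h1, one_mul]; rfl
  have dG : G.val = X * (SLm j G0).val * X' := by rw [hG, mul_assoc, h2, mul_one]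
  have dH : H.val = X * (SLm j H0).val * X' := by rw [hH, mul_assoc, h2, mul_one]
  have trm : ∀ M : SL2 A, tr (SLm j M) = j (tr M) := by
    intro M
    rw [tr_eq, tr_eq, map_add]; rfl
  have trG : tr G = j (tr G0) := by
    rw [← trm]
    unfold tr
    rw [dG, mul_assoc, Matrix.trace_mul_comm, mul_assoc, h1, mul_one]
  have cGH : ∀ M N : Matrix (Fin 2) (Fin 2) Om, X' * (M * N) * X = (X' * M * X) * (X' * N * X) := by
    intro M N
    calc X' * (M * N) * X = X' * M * 1 * N * X := by simp only [mul_one, mul_assoc]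
      _ = X' * M * (X * X') * N * X := by rw [h2]
      _ = _ := by simp only [mul_assoc]
  have cI : X' * qI G * X = j.mapMatrix (qI G0) := by
    unfold qI
    rw [mul_sub, sub_mul, Matrix.mul_smul, Matrix.smul_mul, Matrix.mul_smul, Matrix.smul_mul, cG,
      mul_one, h1, map_sub, mm_smul, mm_smul, map_one, map_ofNat, trG]
  have cJ : X' * qJ G H * X = j.mapMatrix (qJ G0 H0) := by
    unfold qJ
    rw [mul_sub, sub_mul, cGH, cGH, cG, cH, map_sub, map_mul, map_mul]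
  have trC : tr (G * H * G⁻¹ * H⁻¹) = j (tr (G0 * H0 * G0⁻¹ * H0⁻¹)) := by
    have k1 : (G * H * G⁻¹ * H⁻¹).val =
        X * (SLm j (G0 * H0 * G0⁻¹ * H0⁻¹)).val * X' := by
      have iG : (G⁻¹).val = X * (SLm j G0⁻¹).val * X' := by
        have k2 : G.val * (X * (SLm j G0⁻¹).val * X') = 1 := by
          rw [← mul_assoc, ← mul_assoc, ← hG, mul_assoc X, ← Matrix.SpecialLinearGroup.coe_mul,
            ← map_mul, mul_inv_cancel, map_one, Matrix.SpecialLinearGroup.coe_one, mul_one, h2]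
        calc (G⁻¹).val = (G⁻¹).val * (G.val * (X * (SLm j G0⁻¹).val * X')) := by rw [k2, mul_one]
          _ = ((G⁻¹).val * G.val) * (X * (SLm j G0⁻¹).val * X') := (mul_assoc _ _ _).symm
          _ = _ := by
            rw [← Matrix.SpecialLinearGroup.coe_mul, inv_mul_cancel,
              Matrix.SpecialLinearGroup.coe_one, one_mul]
      have iH : (H⁻¹).val = X * (SLm j H0⁻¹).val * X' := by
        have k2 : H.val * (X * (SLm j H0⁻¹).val * X') = 1 := by
          rw [← mul_assoc, ← mul_assoc, ← hH, mul_assoc X, ← Matrix.SpecialLinearGroup.coe_mul,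
            ← map_mul, mul_inv_cancel, map_one, Matrix.SpecialLinearGroup.coe_one, mul_one, h2]
        calc (H⁻¹).val = (H⁻¹).val * (H.val * (X * (SLm j H0⁻¹).val * X')) := by rw [k2, mul_one]
          _ = ((H⁻¹).val * H.val) * (X * (SLm j H0⁻¹).val * X') := (mul_assoc _ _ _).symm
          _ = _ := by
            rw [← Matrix.SpecialLinearGroup.coe_mul, inv_mul_cancel,
              Matrix.SpecialLinearGroup.coe_one, one_mul]
      have mm : ∀ M N : Matrix (Fin 2) (Fin 2) Om, X * M * X' * (X * N * X') = X * (M * N) * X' := by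
        intro M N
        calc X * M * X' * (X * N * X') = X * M * (X' * X) * N * X' := by simp only [mul_assoc]
          _ = _ := by rw [h1]; simp only [mul_one, mul_assoc]
      rw [Matrix.SpecialLinearGroup.coe_mul, Matrix.SpecialLinearGroup.coe_mul,
        Matrix.SpecialLinearGroup.coe_mul, iG, iH, dG, dH, mm, mm, mm, map_mul, map_mul, map_mul,
        Matrix.SpecialLinearGroup.coe_mul, Matrix.SpecialLinearGroup.coe_mul,
        Matrix.SpecialLinearGroup.coe_mul]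
    rw [← trm]
    unfold tr
    rw [k1, mul_assoc, Matrix.trace_mul_comm, mul_assoc, h1, mul_one]
  obtain ⟨-, -, -, -, -, e6⟩ := p_Edc Om G H
  have e6' := e6 S
  generalize hα : tr G0 ^ 2 - 4 = α
  generalize hβ : tr (G0 * H0 * G0⁻¹ * H0⁻¹) - 2 = β
  have f1 : tr G ^ 2 - 4 = j α := by rw [trG, ← hα, map_sub, map_pow, map_ofNat]
  have f2 : tr (G * H * G⁻¹ * H⁻¹) - 2 = j β := by rw [trC, ← hβ, map_sub, map_ofNat]
  rw [f1, f2] at e6'
  refine ⟨(α * β * t0) • 1 + (β * (2 * t1 - tr G0 * t0)) • qI G0 + (α * (t2 - t3)) • qJ G0 H0 -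
    (2 * t4 - 2 * t5 - tr G0 * t2 + tr G0 * t3) • (qI G0 * qJ G0 H0), ?_⟩
  have e7 : j (2 * α * β) • (X' * (u • S.val) * X) = u • (X' * ((2 * j α * j β) • S.val) * X) := by
    rw [Matrix.mul_smul, Matrix.smul_mul, Matrix.mul_smul, Matrix.smul_mul, smul_comm, map_mul,
      map_mul, map_ofNat]
  rw [e7, e6', mul_sub, mul_add, mul_add, sub_mul, add_mul, add_mul, Matrix.mul_smul,
    Matrix.smul_mul, Matrix.mul_smul, Matrix.smul_mul, Matrix.mul_smul, Matrix.smul_mul,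
    Matrix.mul_smul, Matrix.smul_mul, mul_one, h1, cI, cJ, cGH, cI, cJ, smul_sub, smul_add,
    smul_add, smul_smul, smul_smul, smul_smul, smul_smul, map_sub, map_add, map_add, mm_smul,
    mm_smul, mm_smul, mm_smul, map_one, map_mul j.mapMatrix]
  have q0 : u * (j α * j β * tr S) = j (α * β * t0) := by
    rw [map_mul, map_mul, ← e0]; ring
  have q1 : u * (j β * (2 * tr (S * G) - tr G * tr S)) = j (β * (2 * t1 - tr G0 * t0)) := by
    rw [map_mul, map_sub, map_mul, map_mul, map_ofNat, ← e0, ← e1, trG]; ring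
  have q2 : u * (j α * (tr (S * G * H) - tr (S * H * G))) = j (α * (t2 - t3)) := by
    rw [map_mul, map_sub, ← e2, ← e3]; ring
  have q3 : u * (2 * tr (S * G * G * H) - 2 * tr (S * G * H * G) - tr G * tr (S * G * H) +
      tr G * tr (S * H * G)) = j (2 * t4 - 2 * t5 - tr G0 * t2 + tr G0 * t3) := by
    rw [map_add, map_sub, map_sub, map_mul, map_mul, map_mul, map_mul, map_ofNat, ← e2, ← e3,
      ← e4, ← e5, trG]; ring
  rw [q0, q1, q2, q3]

end alg

section row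

variable {A : Type} [CommRing A] [IsDomain A] [IsPrincipalIdealRing A]

/-- dividing a row by its greatest common divisor -/
theorem prow (x y : A) (h : ¬ (x = 0 ∧ y = 0)) : ∃ e x' y' u v : A, x = e * x' ∧ y = e * y' ∧
    u * x' + v * y' = 1 := by
  obtain ⟨e, he⟩ := (IsPrincipalIdealRing.principal (Ideal.span {x, y})).principal
  have hx : x ∈ Ideal.span {e} := by
    have : x ∈ Ideal.span {x, y} := Ideal.subset_span (by simp)
    rw [he] at this
    exact this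
  have hy : y ∈ Ideal.span {e} := by
    have : y ∈ Ideal.span {x, y} := Ideal.subset_span (by simp)
    rw [he] at this
    exact this
  have hee : e ∈ Ideal.span {x, y} := by
    rw [he]
    exact Submodule.mem_span_singleton_self e
  obtain ⟨x', hx'⟩ := Ideal.mem_span_singleton.1 hx
  obtain ⟨y', hy'⟩ := Ideal.mem_span_singleton.1 hy
  obtain ⟨u, v, huv⟩ := Ideal.mem_span_pair.1 hee
  refine ⟨e, x', y', u, v, hx', hy', ?_⟩
  have e0 : e ≠ 0 := by
    intro h0
    apply h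
    rw [hx', hy', h0, zero_mul, zero_mul]
    exact ⟨rfl, rfl⟩
  apply mul_left_cancel₀ e0
  rw [mul_one]
  conv_rhs => rw [← huv, hx', hy']
  ring

/-- a basis in which the second row is divisible by `π` -/
theorem brow {π : A} (hπ : Prime π) (P : Matrix (Fin 2) (Fin 2) A) (hP : Associated P.det π) :
    ∃ Q Q' : Matrix (Fin 2) (Fin 2) A, Q' * Q = 1 ∧ Q * Q' = 1 ∧
      ∀ k, π ∣ (Q' * P) 1 k := by
  have hd : π ∣ P.det := hP.symm.dvd
  have hnd : ¬ π ^ 2 ∣ P.det := by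
    intro h
    have h1 := h.trans hP.dvd
    rw [pow_two] at h1
    have h2 : π * π ∣ π * 1 := by rwa [mul_one]
    exact hπ.not_isUnit (isUnit_of_dvd_one ((mul_dvd_mul_iff_left hπ.ne_zero).1 h2))
  rw [Matrix.det_fin_two] at hd hnd
  -- a row `(x, y)`, not divisible by `π`
  obtain ⟨x, y, hxy, h0, h1⟩ : ∃ x y : A, ¬ (π ∣ x ∧ π ∣ y) ∧ π ∣ x * P 0 0 + y * P 1 0 ∧
      π ∣ x * P 0 1 + y * P 1 1 := by
    by_cases hc : π ∣ P 1 0 ∧ π ∣ P 0 0
    · refine ⟨P 1 1, -P 0 1, ?_, ?_, ?_⟩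
      · rintro ⟨k1, k2⟩
        rw [dvd_neg] at k2
        apply hnd
        rw [pow_two]
        exact dvd_sub (mul_dvd_mul hc.2 k1) (mul_dvd_mul k2 hc.1)
      · have : P 1 1 * P 0 0 + -P 0 1 * P 1 0 = P 0 0 * P 1 1 - P 0 1 * P 1 0 := by ring
        rw [this]; exact hd
      · have : P 1 1 * P 0 1 + -P 0 1 * P 1 1 = 0 := by ring
        rw [this]; exact dvd_zero _
    · refine ⟨P 1 0, -P 0 0, ?_, ?_, ?_⟩
      · rintro ⟨k1, k2⟩
        rw [dvd_neg] at k2
        exact hc ⟨k1, k2⟩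
      · have : P 1 0 * P 0 0 + -P 0 0 * P 1 0 = 0 := by ring
        rw [this]; exact dvd_zero _
      · have : P 1 0 * P 0 1 + -P 0 0 * P 1 1 = -(P 0 0 * P 1 1 - P 0 1 * P 1 0) := by ring
        rw [this, dvd_neg]; exact hd
  obtain ⟨e, x', y', u, v, hx, hy, huv⟩ := prow x y (by
    rintro ⟨rfl, rfl⟩
    exact hxy ⟨dvd_zero _, dvd_zero _⟩)
  have he : ¬ π ∣ e := by
    intro h
    exact hxy ⟨by rw [hx]; exact h.mul_right _, by rw [hy]; exact h.mul_right _⟩
  refine ⟨!![y', u; -x', v], !![v, -u; x', y'], ?_, ?_, ?_⟩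
  · ext i k
    fin_cases i <;> fin_cases k <;> simp [Matrix.mul_apply, Fin.sum_univ_two] <;>
      first | ring1 | linear_combination huv
  · ext i k
    fin_cases i <;> fin_cases k <;> simp [Matrix.mul_apply, Fin.sum_univ_two] <;>
      first | ring1 | linear_combination huv
  · intro k
    have key : ∀ k, (!![v, -u; x', y'] * P) 1 k = x' * P 0 k + y' * P 1 k := by
      intro k
      simp [Matrix.mul_apply, Fin.sum_univ_two]
    rw [key]
    have key2 : π ∣ x * P 0 k + y * P 1 k := by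
      fin_cases k
      · exact h0
      · exact h1
    have : x * P 0 k + y * P 1 k = e * (x' * P 0 k + y' * P 1 k) := by
      rw [hx, hy]; ring
    rw [this] at key2
    exact (hπ.dvd_or_dvd key2).resolve_left he

theorem z2_a : ∀ x y : Multiplicative (ZMod 2), x ≠ 1 → y ≠ 1 → x⁻¹ * y = 1 := by decide

theorem z2_b : ∀ x y : Multiplicative (ZMod 2), x = 1 → y ≠ 1 → x * y ≠ 1 := by decide

/-- the basis of the lattice -/
theorem tw_fin {π : A} (hπ : Prime π) {Λ : Type} [Group Λ] (χ : Λ →* Multiplicative (ZMod 2))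
    (hχ : ∃ l, χ l ≠ 1) (M0 : Λ → Matrix (Fin 2) (Fin 2) A) (c : Λ → Λ → A)
    (hc : ∀ l l', M0 l * M0 l' = c l l' • M0 (l * l'))
    (hcu : ∀ l l', χ l = 1 ∨ χ l' = 1 → IsUnit (c l l'))
    (hd : ∀ l, χ l ≠ 1 → Associated (M0 l).det π) (ht : ∀ l, χ l ≠ 1 → π ∣ (M0 l).trace) :
    ∃ Q Q' : Matrix (Fin 2) (Fin 2) A, Q' * Q = 1 ∧ Q * Q' = 1 ∧
      (∀ l, π ∣ (Q' * M0 l * Q) 1 0) ∧
      ∀ l, χ l ≠ 1 → π ∣ (Q' * M0 l * Q) 0 0 ∧ π ∣ (Q' * M0 l * Q) 1 1 := by
  obtain ⟨l1, hl1⟩ := hχ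
  obtain ⟨Q, Q', h1, h2, h3⟩ := brow hπ (M0 l1) (hd l1 hl1)
  have hM : ∀ l l', (Q' * M0 l * Q) * (Q' * M0 l' * Q) = c l l' • (Q' * M0 (l * l') * Q) := by
    intro l l'
    calc (Q' * M0 l * Q) * (Q' * M0 l' * Q) = Q' * M0 l * (Q * Q') * M0 l' * Q := by
          simp only [mul_assoc]
      _ = Q' * (M0 l * M0 l') * Q := by rw [h2]; simp only [mul_one, mul_assoc]
      _ = _ := by rw [hc, Matrix.mul_smul, Matrix.smul_mul]
  have hdet : (Q' * M0 l1 * Q).det = (M0 l1).det := by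
    rw [Matrix.det_mul, Matrix.det_mul, mul_comm Q'.det, mul_assoc, ← Matrix.det_mul, h1,
      Matrix.det_one, mul_one]
  have htr : ∀ l, (Q' * M0 l * Q).trace = (M0 l).trace := by
    intro l
    rw [Matrix.trace_mul_comm, ← mul_assoc, h2, one_mul]
  have r1 : ∀ k, π ∣ (Q' * M0 l1 * Q) 1 k := by
    intro k
    rw [Matrix.mul_apply, Fin.sum_univ_two]
    exact dvd_add ((h3 0).mul_right _) ((h3 1).mul_right _)
  have r2 : ∀ l, χ l ≠ 1 → ∀ k, π ∣ (Q' * M0 l * Q) 1 k := by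
    intro l hl k
    have e1 := hM l1 (l1⁻¹ * l)
    rw [mul_inv_cancel_left] at e1
    have e2 := congrFun (congrFun e1 1) k
    rw [Matrix.mul_apply, Fin.sum_univ_two, Matrix.smul_apply, smul_eq_mul] at e2
    have hu : IsUnit (c l1 (l1⁻¹ * l)) := hcu _ _ (Or.inr (by
      rw [map_mul, map_inv]; exact z2_a _ _ hl1 hl))
    have e3 : π ∣ c l1 (l1⁻¹ * l) * (Q' * M0 l * Q) 1 k := by
      rw [← e2]
      exact dvd_add ((r1 0).mul_right _) ((r1 1).mul_right _)
    exact (hu.dvd_mul_left).1 e3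
  have r3 : ∀ l, χ l ≠ 1 → π ∣ (Q' * M0 l * Q) 0 0 := by
    intro l hl
    have e1 := ht l hl
    rw [← htr, Matrix.trace_fin_two] at e1
    exact (dvd_add_left (r2 l hl 1)).1 e1
  have r4 : ¬ π ∣ (Q' * M0 l1 * Q) 0 1 := by
    intro h
    have e1 : π * π ∣ (M0 l1).det := by
      rw [← hdet, Matrix.det_fin_two]
      exact dvd_sub (mul_dvd_mul (r3 l1 hl1) (r1 1)) (mul_dvd_mul h (r1 0))
    have e2 := e1.trans (hd l1 hl1).dvd
    have e3 : π * π ∣ π * 1 := by rwa [mul_one]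
    exact hπ.not_isUnit (isUnit_of_dvd_one ((mul_dvd_mul_iff_left hπ.ne_zero).1 e3))
  refine ⟨Q, Q', h1, h2, fun l => ?_, fun l hl => ⟨r3 l hl, r2 l hl 1⟩⟩
  by_cases hl : χ l = 1
  · have e1 := congrFun (congrFun (hM l l1) 1) 1
    rw [Matrix.mul_apply, Fin.sum_univ_two, Matrix.smul_apply, smul_eq_mul] at e1
    have e2 : π ∣ (Q' * M0 (l * l1) * Q) 1 1 := r2 _ (by
      rw [map_mul]; exact z2_b _ _ hl hl1) 1
    have e3 : π ∣ (Q' * M0 l * Q) 1 0 * (Q' * M0 l1 * Q) 0 1 := by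
      have e4 : (Q' * M0 l * Q) 1 0 * (Q' * M0 l1 * Q) 0 1 =
          c l l1 * (Q' * M0 (l * l1) * Q) 1 1 - (Q' * M0 l * Q) 1 1 * (Q' * M0 l1 * Q) 1 1 := by
        linear_combination e1
      rw [e4]
      exact dvd_sub (e2.mul_left _) ((r1 1).mul_left _)
    exact (hπ.dvd_or_dvd e3).resolve_right r4
  · exact r2 l hl 0

end row

section main

variable {A : Type} [CommRing A] [IsDomain A] [IsPrincipalIdealRing A]
  {Om : Type} [Field Om] [CharZero Om]

theorem tw_gen {π : A} (hπ : Prime π) {Λ : Type} [Group Λ] (j : A →+* Om)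
    (hj : Function.Injective j) (s : Λ →* SL2 Om) (χ : Λ →* Multiplicative (ZMod 2))
    (Λ0 : Subgroup Λ) (hχ : ∃ l, χ l ≠ 1) (u : Λ → Om) (hu0 : ∀ g ∈ Λ0, u g = 1)
    (c : Λ → Λ → A) (hc : ∀ l l', u l * u l' = j (c l l') * u (l * l'))
    (hcu : ∀ l l', χ l = 1 ∨ χ l' = 1 → IsUnit (c l l'))
    (d : Λ → A) (hd : ∀ l, u l ^ 2 = j (d l)) (hd1 : ∀ l, χ l ≠ 1 → Associated (d l) π)
    (ht : ∀ l, ∀ g ∈ Λ0, ∃ t : A, u l * tr (s (l * g)) = j t ∧ (χ l ≠ 1 → π ∣ t))
    (ρ0 : Λ0 →* SL2 A) (hρ0 : ∀ g : Λ0, tr (s g) = j (tr (ρ0 g)))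
    (hirr : Irr (s.comp Λ0.subtype)) :
    ∃ (B B' : Matrix (Fin 2) (Fin 2) Om) (M : Λ → Matrix (Fin 2) (Fin 2) A), B' * B = 1 ∧
      (∀ l, (u l • (s l).val) * B = B * j.mapMatrix (M l)) ∧
      (∀ l, π ∣ M l 1 0) ∧ ∀ l, χ l ≠ 1 → π ∣ M l 0 0 ∧ π ∣ M l 1 1 := by
  have trm : ∀ M : SL2 A, tr (SLm j M) = j (tr M) := by
    intro M
    rw [tr_eq, tr_eq, map_add]; rfl
  obtain ⟨X, hX⟩ := H.p_bn Λ0 Om ((SLm j).comp ρ0) (s.comp Λ0.subtype) (fun g => by
    show tr (SLm j (ρ0 g)) = tr (s g)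
    rw [trm, hρ0]) hirr
  obtain ⟨g, h, hb, ha⟩ := p_Ech Om Λ0 (s.comp Λ0.subtype) hirr
  generalize hXv : X.val = Xv at hX
  obtain ⟨X', h1⟩ : ∃ X' : Matrix (Fin 2) (Fin 2) Om, X' * Xv = 1 := ⟨(X⁻¹).val, by
    rw [← hXv, ← Units.val_mul, inv_mul_cancel, Units.val_one]⟩
  have h2 : Xv * X' = 1 := mul_eq_one_comm.mp h1
  have hX' : ∀ g : Λ0, Xv * (SLm j (ρ0 g)).val = (s g).val * Xv := hX
  -- the elements α, β
  have hα : tr (ρ0 g) ^ 2 - 4 ≠ 0 := by
    intro h0
    apply ha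
    have := congrArg j h0
    rw [map_sub, map_pow, ← hρ0, map_zero, map_ofNat] at this
    exact sub_eq_zero.mp this
  have hβ : tr (ρ0 g * ρ0 h * (ρ0 g)⁻¹ * (ρ0 h)⁻¹) - 2 ≠ 0 := by
    intro h0
    apply hb
    rw [← map_inv, ← map_inv, ← map_mul, ← map_mul, ← map_mul] at h0
    have := congrArg j h0
    rw [map_sub, ← hρ0, map_zero, map_ofNat] at this
    exact sub_eq_zero.mp this
  have h2A : (2 : A) ≠ 0 := by
    intro h0
    have h3 := congrArg j h0
    rw [map_ofNat, map_zero] at h3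
    exact two_ne_zero h3
  obtain ⟨D, hDdef⟩ : ∃ D : A, D = 2 * (tr (ρ0 g) ^ 2 - 4) *
      (tr (ρ0 g * ρ0 h * (ρ0 g)⁻¹ * (ρ0 h)⁻¹) - 2) := ⟨_, rfl⟩
  have hD : D ≠ 0 := by
    rw [hDdef]
    exact mul_ne_zero (mul_ne_zero h2A hα) hβ
  have hN : ∀ l, ∃ N : Matrix (Fin 2) (Fin 2) A,
      j D • (X' * (u l • (s l).val) * Xv) = j.mapMatrix N := by
    intro l
    obtain ⟨t0, k0, -⟩ := ht l 1 Λ0.one_mem
    obtain ⟨t1, k1, -⟩ := ht l g g.2
    obtain ⟨t2, k2, -⟩ := ht l (g * h) (Λ0.mul_mem g.2 h.2)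
    obtain ⟨t3, k3, -⟩ := ht l (h * g) (Λ0.mul_mem h.2 g.2)
    obtain ⟨t4, k4, -⟩ := ht l (g * g * h) (Λ0.mul_mem (Λ0.mul_mem g.2 g.2) h.2)
    obtain ⟨t5, k5, -⟩ := ht l (g * h * g) (Λ0.mul_mem (Λ0.mul_mem g.2 h.2) g.2)
    rw [mul_one] at k0
    rw [hDdef]
    refine coord j (s g) (s h) (s l) (ρ0 g) (ρ0 h) Xv X' h1 (hX' g) (hX' h) (u l) t0 t1 t2 t3 t4 t5
      k0 ?_ ?_ ?_ ?_ ?_
    · rw [← k1]; simp only [map_mul]
    · rw [← k2]; simp only [map_mul, mul_assoc]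
    · rw [← k3]; simp only [map_mul, mul_assoc]
    · rw [← k4]; simp only [map_mul, mul_assoc]
    · rw [← k5]; simp only [map_mul, mul_assoc]
  choose N hN using hN
  -- the family over the fraction field
  have hι : Function.Injective (algebraMap A (FractionRing A)) := IsFractionRing.injective A _
  obtain ⟨j', hj'⟩ : ∃ j' : FractionRing A →+* Om, ∀ x : A,
      j' (algebraMap A (FractionRing A) x) = j x :=
    ⟨IsFractionRing.lift hj, fun x => IsFractionRing.lift_algebraMap hj x⟩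
  have hj'i : ∀ M N : Matrix (Fin 2) (Fin 2) (FractionRing A), j'.mapMatrix M = j'.mapMatrix N →
      M = N := fun M N e => Matrix.map_injective j'.injective e
  have hji : ∀ M N : Matrix (Fin 2) (Fin 2) A, j.mapMatrix M = j.mapMatrix N →
      M = N := fun M N e => Matrix.map_injective hj e
  have hjj : ∀ M : Matrix (Fin 2) (Fin 2) A,
      j'.mapMatrix (M.map (algebraMap A (FractionRing A))) = j.mapMatrix M := by
    intro M
    ext i k
    exact hj' _
  have hD' : algebraMap A (FractionRing A) D ≠ 0 := fun e => hD (hι (by rw [e, map_zero]))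
  have hjD : j D ≠ 0 := fun e => hD (hj (by rw [e, map_zero]))
  obtain ⟨m, hmdef⟩ : ∃ m : Λ → Matrix (Fin 2) (Fin 2) (FractionRing A),
      ∀ l, m l = (algebraMap A (FractionRing A) D)⁻¹ • (N l).map (algebraMap A (FractionRing A)) :=
    ⟨_, fun l => rfl⟩
  have hY : ∀ l, j'.mapMatrix (m l) = X' * (u l • (s l).val) * Xv := by
    intro l
    rw [hmdef, mm_smul, hjj, ← hN, map_inv₀, hj', smul_smul, inv_mul_cancel₀ hjD, one_smul]
  have hSS : ∀ l l', (u l • (s l).val) * (u l' • (s l').val) =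
      j (c l l') • (u (l * l') • (s (l * l')).val) := by
    intro l l'
    rw [smul_mul_smul_comm, hc, map_mul, Matrix.SpecialLinearGroup.coe_mul, smul_smul]
  have hBdd : Bdd m := by
    refine ⟨D, hD, fun l i k => ⟨N l i k, ?_⟩⟩
    rw [hmdef, Matrix.smul_apply, smul_eq_mul, mul_inv_cancel_left₀ hD', Matrix.map_apply]
  obtain ⟨B0, hB0, hM⟩ := lat m hBdd ⟨1, hj'i _ _ (by
      rw [hY, hu0 1 Λ0.one_mem, map_one, map_one, Matrix.SpecialLinearGroup.coe_one, one_smul,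
        mul_one, h1])⟩ (fun l l' => ⟨l * l', c l l', hj'i _ _ (by
      rw [map_mul, hY, hY, mm_smul, hY, hj']
      calc X' * (u l • (s l).val) * Xv * (X' * (u l' • (s l').val) * Xv)
          = X' * (u l • (s l).val) * (Xv * X') * (u l' • (s l').val) * Xv := by
            simp only [mul_assoc]
        _ = X' * ((u l • (s l).val) * (u l' • (s l').val)) * Xv := by
            rw [h2]; simp only [mul_one, mul_assoc]
        _ = _ := by rw [hSS, Matrix.mul_smul, Matrix.smul_mul])⟩)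
  choose M0 hM0 using hM
  have hB1 : (j'.mapMatrix B0).det ≠ 0 := by
    rw [← RingHom.map_det]
    intro e
    exact hB0 (j'.injective (by rw [e, map_zero]))
  obtain ⟨B1', hB1'⟩ : ∃ B1' : Matrix (Fin 2) (Fin 2) Om, B1' * j'.mapMatrix B0 = 1 :=
    ⟨_, Matrix.nonsing_inv_mul _ (isUnit_iff_ne_zero.2 hB1)⟩
  obtain ⟨C, hC⟩ : ∃ C : Matrix (Fin 2) (Fin 2) Om, C = Xv * j'.mapMatrix B0 := ⟨_, rfl⟩
  have hC1 : (B1' * X') * C = 1 := by
    rw [hC, mul_assoc, ← mul_assoc X', h1, one_mul, hB1']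
  have hSC : ∀ l, (u l • (s l).val) * C = C * j.mapMatrix (M0 l) := by
    intro l
    have e1 := congrArg j'.mapMatrix (hM0 l)
    rw [map_mul, map_mul, hY, hjj] at e1
    calc (u l • (s l).val) * C = (Xv * X') * (u l • (s l).val) * Xv * j'.mapMatrix B0 := by
          rw [h2, hC]; simp only [one_mul, mul_assoc]
      _ = Xv * (X' * (u l • (s l).val) * Xv * j'.mapMatrix B0) := by simp only [mul_assoc]
      _ = _ := by rw [e1, hC, mul_assoc]
  have hMC : ∀ l, j.mapMatrix (M0 l) = (B1' * X') * (u l • (s l).val) * C := by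
    intro l
    rw [mul_assoc, hSC, ← mul_assoc, hC1, one_mul]
  have hC2 : C * (B1' * X') = 1 := mul_eq_one_comm.mp hC1
  have c1 : ∀ l l', M0 l * M0 l' = c l l' • M0 (l * l') := by
    intro l l'
    apply hji
    rw [map_mul, mm_smul, hMC, hMC, hMC]
    calc (B1' * X') * (u l • (s l).val) * C * ((B1' * X') * (u l' • (s l').val) * C)
        = (B1' * X') * (u l • (s l).val) * (C * (B1' * X')) * (u l' • (s l').val) * C := by
          simp only [mul_assoc]
      _ = (B1' * X') * ((u l • (s l).val) * (u l' • (s l').val)) * C := by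
          rw [hC2]; simp only [mul_one, mul_assoc]
      _ = _ := by rw [hSS, Matrix.mul_smul, Matrix.smul_mul]
  have c2 : ∀ l, (M0 l).det = d l := by
    intro l
    apply hj
    rw [RingHom.map_det, hMC, Matrix.det_mul, Matrix.det_mul, mul_comm (B1' * X').det, mul_assoc,
      ← Matrix.det_mul, hC1, Matrix.det_one, mul_one, Matrix.det_smul, Fintype.card_fin,
      (s l).det_coe, mul_one, hd]
  have c3 : ∀ l, j (M0 l).trace = u l * tr (s l) := by
    intro l
    have e1 : j (M0 l).trace = (j.mapMatrix (M0 l)).trace := by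
      rw [Matrix.trace_fin_two, Matrix.trace_fin_two, map_add]; rfl
    rw [e1, hMC, Matrix.trace_mul_comm, ← mul_assoc, hC2, one_mul, Matrix.trace_smul, smul_eq_mul]
    rfl
  obtain ⟨Q, Q', q1, q2, q3, q4⟩ := tw_fin hπ χ hχ M0 c c1 hcu (fun l hl => by
    rw [c2]; exact hd1 l hl) (fun l hl => by
    obtain ⟨t, k1, k2⟩ := ht l 1 Λ0.one_mem
    rw [mul_one, ← c3] at k1
    rw [hj k1]
    exact k2 hl)
  refine ⟨C * j.mapMatrix Q, j.mapMatrix Q' * (B1' * X'), fun l => Q' * M0 l * Q, ?_, ?_, q3, q4⟩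
  · calc j.mapMatrix Q' * (B1' * X') * (C * j.mapMatrix Q)
        = j.mapMatrix Q' * ((B1' * X') * C) * j.mapMatrix Q := by simp only [mul_assoc]
      _ = 1 := by rw [hC1, mul_one, ← map_mul, q1, map_one]
  · intro l
    calc (u l • (s l).val) * (C * j.mapMatrix Q) = C * j.mapMatrix (M0 l) * j.mapMatrix Q := by
          rw [← mul_assoc, hSC]
      _ = C * j.mapMatrix (Q * Q') * j.mapMatrix (M0 l) * j.mapMatrix Q := by
          rw [q2, map_one, mul_one]
      _ = C * j.mapMatrix Q * j.mapMatrix (Q' * M0 l * Q) := by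
          simp only [map_mul, mul_assoc]

/-- the final conjugation: representations over the larger ring -/
theorem tw_out {π : A} {Z : Type} [CommRing Z] (ι : A →+* Z) (J : Z →+* Om)
    (hJ : Function.Injective J) {Λ : Type} [Group Λ] (s : Λ →* SL2 Om)
    (χ : Λ →* Multiplicative (ZMod 2)) (f : Z) (hf : f ^ 2 = ι π) (hf0 : J f ≠ 0)
    (u : Λ → Om) (hu : ∀ l, u l ≠ 0) (v : Λ → Z) (hv0 : ∀ l, χ l = 1 → J (v l) * u l = 1)
    (hv1 : ∀ l, χ l ≠ 1 → J (v l) * u l = J f)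
    (B B' : Matrix (Fin 2) (Fin 2) Om) (M : Λ → Matrix (Fin 2) (Fin 2) A) (hB : B' * B = 1)
    (hM : ∀ l, (u l • (s l).val) * B = B * (J.comp ι).mapMatrix (M l))
    (h10 : ∀ l, π ∣ M l 1 0) (h00 : ∀ l, χ l ≠ 1 → π ∣ M l 0 0 ∧ π ∣ M l 1 1) :
    ∃ ρ : Λ →* SL2 Z, (∀ l, J (tr (ρ l)) = tr (s l)) ∧
      (∀ l, χ l = 1 → ∃ a b c d : A, (ρ l).val = v l • !![ι a, f * ι b; f * ι c, ι d]) ∧
      (∀ l, χ l ≠ 1 → ∃ a b c d : A, (ρ l).val = v l • !![f * ι a, ι b; ι c, f * ι d]) := by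
  obtain ⟨C, hC⟩ : ∃ C : Matrix (Fin 2) (Fin 2) Om, C = B * !![1, 0; 0, J f] := ⟨_, rfl⟩
  obtain ⟨C', hC'⟩ : ∃ C' : Matrix (Fin 2) (Fin 2) Om, C' * C = 1 := ⟨!![1, 0; 0, (J f)⁻¹] * B', by
    calc !![1, 0; 0, (J f)⁻¹] * B' * C = !![1, 0; 0, (J f)⁻¹] * (B' * B) * !![1, 0; 0, J f] := by
          rw [hC]; simp only [mul_assoc]
      _ = 1 := by
        rw [hB, mul_one]
        ext i k
        fin_cases i <;> fin_cases k <;> simp [Matrix.mul_apply, Fin.sum_univ_two, hf0]⟩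
  have hC2 : C * C' = 1 := mul_eq_one_comm.mp hC'
  have hff : J f * J f = J (ι π) := by rw [← hf, pow_two, map_mul]
  have key : ∀ l, ∃ R : Matrix (Fin 2) (Fin 2) Z, (s l).val * C = C * J.mapMatrix R ∧
      (χ l = 1 → ∃ a b c d : A, R = v l • !![ι a, f * ι b; f * ι c, ι d]) ∧
      (χ l ≠ 1 → ∃ a b c d : A, R = v l • !![f * ι a, ι b; ι c, f * ι d]) := by
    intro l
    have hs : (s l).val * B = (u l)⁻¹ • (B * (J.comp ι).mapMatrix (M l)) := by
      rw [← hM, Matrix.smul_mul, smul_smul, inv_mul_cancel₀ (hu l), one_smul]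
    obtain ⟨c, hc⟩ := h10 l
    by_cases hl : χ l = 1
    · refine ⟨v l • !![ι (M l 0 0), f * ι (M l 0 1); f * ι c, ι (M l 1 1)], ?_,
        fun _ => ⟨_, _, _, _, rfl⟩, fun h => absurd hl h⟩
      have e1 : (u l)⁻¹ = J (v l) := by
        rw [eq_comm]; exact eq_inv_of_mul_eq_one_left (hv0 l hl)
      rw [hC, ← mul_assoc, hs, mm_smul, Matrix.mul_smul, Matrix.smul_mul, e1, mul_assoc, mul_assoc]
      congr 2
      ext i k
      fin_cases i <;> fin_cases k <;>
        simp [Matrix.mul_apply, Fin.sum_univ_two, hc, ← hff] <;> ring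
    · obtain ⟨⟨a, ha⟩, ⟨d, hd⟩⟩ := h00 l hl
      refine ⟨v l • !![f * ι a, ι (M l 0 1); ι c, f * ι d], ?_,
        fun h => absurd h hl, fun _ => ⟨_, _, _, _, rfl⟩⟩
      have e1 : (u l)⁻¹ = J (v l) * (J f)⁻¹ := by
        rw [eq_mul_inv_iff_mul_eq₀ hf0, ← hv1 l hl, mul_comm (J (v l)), inv_mul_cancel_left₀ (hu l)]
      rw [hC, ← mul_assoc, hs, mm_smul, Matrix.mul_smul, Matrix.smul_mul, e1, mul_assoc, mul_assoc,
        mul_smul, ← Matrix.mul_smul]
      congr 2
      ext i k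
      fin_cases i <;> fin_cases k <;>
        simp [Matrix.mul_apply, Fin.sum_univ_two, hc, ha, hd, ← hff] <;> field_simp
  choose R hR1 hR2 hR3 using key
  have hRe : ∀ l, J.mapMatrix (R l) = C' * (s l).val * C := by
    intro l
    rw [mul_assoc, hR1, ← mul_assoc, hC', one_mul]
  have hJi : ∀ M N : Matrix (Fin 2) (Fin 2) Z, J.mapMatrix M = J.mapMatrix N →
      M = N := fun M N e => Matrix.map_injective hJ e
  have hdet : ∀ l, (R l).det = 1 := by
    intro l
    apply hJ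
    rw [RingHom.map_det, hRe, Matrix.det_mul, Matrix.det_mul, mul_comm C'.det, mul_assoc,
      ← Matrix.det_mul, hC', Matrix.det_one, mul_one, (s l).det_coe, map_one]
  refine ⟨⟨⟨fun l => ⟨R l, hdet l⟩, ?_⟩, ?_⟩, ?_, hR2, hR3⟩
  · apply Subtype.ext
    apply hJi
    show J.mapMatrix (R 1) = J.mapMatrix 1
    rw [hRe, map_one, map_one, Matrix.SpecialLinearGroup.coe_one, mul_one, hC']
  · intro x y
    apply Subtype.ext
    apply hJi
    show J.mapMatrix (R (x * y)) = J.mapMatrix (R x * R y)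
    rw [map_mul, hRe, hRe, hRe, map_mul, Matrix.SpecialLinearGroup.coe_mul]
    calc C' * ((s x).val * (s y).val) * C = C' * (s x).val * 1 * (s y).val * C := by
          simp only [mul_one, mul_assoc]
      _ = C' * (s x).val * (C * C') * (s y).val * C := by rw [hC2]
      _ = _ := by simp only [mul_assoc]
  · intro l
    show J (R l).trace = (s l).val.trace
    have e1 : J (R l).trace = (J.mapMatrix (R l)).trace := by
      rw [Matrix.trace_fin_two, Matrix.trace_fin_two, map_add]; rfl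
    rw [e1, hRe, Matrix.trace_mul_comm, ← mul_assoc, hC2, one_mul]

end main

end Pool.Agent.F8.EG
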