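import Pool.Agent.Lib.MP_305fdd_al.F8.EG.Leg
import Pool.Agent.Lib.MP_305fdd_al.F8.E.Eid

/-!
# MP_305fdd_al, block E for general orders: local solvability from representations modulo `m`
-/

set_option autoImplicit false

namespace Pool.Agent.F8.EG

variable {A : Type} [CommRing A]

/-- modulo every natural number `m > 0` the function `T` is the trace of a representation -/
def Loc {Λ : Type} [Group Λ] (T : Λ → A) : Prop :=
  ∀ m : ℕ, 0 < m → ∃ (S : Type) (_ : CommRing S) (φ : A →+* S), Function.Surjective φ ∧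
    (∀ z, φ z = 0 → (m : A) ∣ z) ∧ ∃ r : Λ →* SL2 S, ∀ l, tr (r l) = φ (T l)

theorem els [IsDomain A] [WfDvdMonoid A] [CharZero A]
    (hN : ∀ x : A, x ≠ 0 → ∃ n : ℕ, 0 < n ∧ x ∣ (n : A))
    {Λ : Type} [Group Λ] (T : Λ → A) (hL : Loc T) (g h : Λ) (ha : T g ^ 2 - 4 ≠ 0) :
    LA (T g ^ 2 - 4) (T (g * h * g⁻¹ * h⁻¹) - 2) := by
  intro π hπ
  obtain ⟨n0, hn0, hπn⟩ := hN π hπ.ne_zero
  have h4 : (4 : A) ≠ 0 := by norm_num
  obtain ⟨m', hm'⟩ : FiniteMultiplicity π (4 * (T g ^ 2 - 4)) :=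
    FiniteMultiplicity.of_prime_left hπ (mul_ne_zero h4 ha)
  obtain ⟨m, hm⟩ : ∃ m : ℕ, ¬ π ^ m ∣ 4 * (T g ^ 2 - 4) := ⟨m' + 1, hm'⟩
  refine ⟨m, fun K => ?_⟩
  obtain ⟨k, hk⟩ : ∃ k : ℕ, k = max K (2 * m) := ⟨_, rfl⟩
  obtain ⟨S, _, φ, hsur, hker, r, hr⟩ := hL (n0 ^ k) (by positivity)
  have hpk : π ^ k ∣ ((n0 ^ k : ℕ) : A) := by
    rw [Nat.cast_pow]
    exact pow_dvd_pow_of_dvd hπn k
  have hK : π ^ K ∣ ((n0 ^ k : ℕ) : A) :=
    (pow_dvd_pow π (by rw [hk]; exact le_max_left _ _)).trans hpk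
  have h2m : π ^ (2 * m) ∣ ((n0 ^ k : ℕ) : A) :=
    (pow_dvd_pow π (by rw [hk]; exact le_max_right _ _)).trans hpk
  have eA : tr (r g) ^ 2 - 4 = φ (T g ^ 2 - 4) := by
    rw [hr, map_sub, map_pow, map_ofNat]
  have eB : tr (r g * r h * (r g)⁻¹ * (r h)⁻¹) - 2 =
      φ (T (g * h * g⁻¹ * h⁻¹) - 2) := by
    rw [← map_inv, ← map_inv, ← map_mul, ← map_mul, ← map_mul, hr, map_sub, map_ofNat]
  obtain ⟨c00, hc00⟩ := hsur ((r g).val 0 0)
  obtain ⟨c01, hc01⟩ := hsur ((r g).val 0 1)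
  obtain ⟨c10, hc10⟩ := hsur ((r g).val 1 0)
  obtain ⟨c11, hc11⟩ := hsur ((r g).val 1 1)
  by_contra hcon
  have hcon' : ∀ x y z : A, π ^ K ∣ (T g ^ 2 - 4) * x ^ 2 + (T (g * h * g⁻¹ * h⁻¹) - 2) * y ^ 2 -
      z ^ 2 → π ^ m ∣ y := by
    intro x y z hxyz
    by_contra hy
    exact hcon ⟨x, y, z, hxyz, fun hh => hy hh.2.1⟩
  have key : ∀ y : A, (∃ x z : S, (tr (r g) ^ 2 - 4) * x ^ 2 +
      (tr (r g * r h * (r g)⁻¹ * (r h)⁻¹) - 2) * (φ y) ^ 2 = z ^ 2) → π ^ m ∣ y := by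
    rintro y ⟨x, z, hxz⟩
    obtain ⟨X, rfl⟩ := hsur x
    obtain ⟨Z, rfl⟩ := hsur z
    rw [eA, eB, ← map_pow, ← map_pow, ← map_pow, ← map_mul, ← map_mul, ← map_add, ← sub_eq_zero,
      ← map_sub] at hxz
    exact hcon' _ _ _ (hK.trans (hker _ hxz))
  obtain ⟨i1, i2, i3⟩ := p_Eid _ (r g) (r h)
  have j1 := key (2 * c10) (by
    rw [map_mul, map_ofNat, hc10]; exact i1)
  have j2 := key (2 * c01) (by
    rw [map_mul, map_ofNat, hc01]; exact i2)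
  have j3 := key (2 * c10 - 2 * (c00 - c11) - 2 * c01) (by
    rw [map_sub, map_sub, map_mul, map_mul, map_mul, map_sub, map_ofNat, hc10, hc01, hc00, hc11]
    exact i3)
  have j4 : π ^ m ∣ 2 * (c00 - c11) := by
    have := (j1.sub j2).sub j3
    convert this using 1
    ring
  have hdet : (r g).val 0 0 * (r g).val 1 1 - (r g).val 0 1 * (r g).val 1 0 = 1 := by
    rw [← Matrix.det_fin_two]; exact (r g).2
  have e5 : φ (T g ^ 2 - 4 - ((c00 - c11) ^ 2 + 4 * c01 * c10)) = 0 := by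
    rw [map_sub, ← eA, map_add, map_pow, map_sub, map_mul, map_mul, map_ofNat, hc00, hc11, hc01,
      hc10, tr_eq]
    linear_combination 4 * hdet
  have e6 := hker _ e5
  have e7 : π ^ (2 * m) ∣ (2 * (c00 - c11)) ^ 2 + 4 * ((2 * c01) * (2 * c10)) := by
    apply dvd_add
    · rw [mul_comm 2 m, pow_mul]
      exact pow_dvd_pow_of_dvd j4 2
    · rw [two_mul, pow_add]
      exact (mul_dvd_mul j2 j1).mul_left 4
  have e8 : π ^ (2 * m) ∣ 4 * (T g ^ 2 - 4) := by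
    have := ((h2m.trans e6).mul_left 4).add e7
    convert this using 1
    ring
  exact hm ((pow_dvd_pow π (by omega)).trans e8)

end Pool.Agent.F8.EG
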